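import Pool.Agent.V11226.ED.Rec

/-!
# MP_1f559e_nt: the digits of `a ξ + β` for the elements `a` of sets with few representations

Let `A` be a set of natural numbers such that every `n ≤ h N` has at most `K` representations as the
sum of `h` elements of `A` (for example a Sidon set, with `h = 2`, `K = 1`; such a set has at most about
`N ^ (1/h)` elements up to `N`). For every irrational number `α` (in particular for all algebraic
ones) and every real number `β`, for all but `(C K N ^ (1 - δ)) ^ (1/h)` of the elements `a` of `A` up to `N`: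

1. for arbitrarily large `s` all words of `l` digits stand among the places `s, …, s + log_b N - 1`
   of the expansion of `a α + β` in base `b` with frequencies which differ from `b ^ (-l)` by at most
   `η`;
2. every word of `l` digits stands infinitely often in the expansion of `a α + β` in base `b`
   (for `l = 1`: each of the `b` digits does), so that `p(l, a α + β, b) = b ^ l`.

Here `δ > 0` and `C` depend only on `b`, `l`, `h` and `η`. The case `h = 1` concerns all integers `a`
(compare the starting file `EveryDigitInMostMultiples` of MP_175f55_nt); the case `h ≥ 2` concerns thin sets of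
multipliers, for which counting exceptional integers says nothing.

Method. Since `α` is irrational there are arbitrarily large `s` such that no `q ≤ D N` satisfies
`‖q b ^ s α‖ < N ^ (-1-ε)`, and so `b ^ s α` has a convergent `p / L` with `D N < L ≤ 2 N ^ (1 + ε)`.
The digits of `a α + β` in the window after `s` are read off from `a p / L`. For a word `w` take the
trigonometric polynomial `T(a) = ∏ (1 + ε (f_w(b ^ i (a p / L + b ^ s β)) - mean))`, where `f_w ≥ 1` is a
majorant of the arc of `w` and `i` runs through a progression of places. The frequencies of `T` are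
distinct modulo `L`, the norm of its coefficients in the exponent `2h / (2h - 1)` is multiplicative,
and the `2h`-th moment of `∑_{a ∈ B} e(a r / L)` is controlled by the number of representations, so
that Hölder's inequality bounds the number of `a` in whose window `w` is too frequent.
-/

set_option autoImplicit false

open Filter

namespace Pool.Agent.Results.MP_1f559e_nt.SparseMultiples

/-- The number of multisets of `h` elements of `A` with sum `n`. -/
noncomputable def rep (A : Set ℕ) (h n : ℕ) : ℕ :=
  {M : Multiset ℕ | M.card = h ∧ (∀ x ∈ M, x ∈ A) ∧ M.sum = n}.ncard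

/-- `count S N`: the number of elements of `S` up to `N`. -/
noncomputable def count (S : Set ℕ) (N : ℕ) : ℕ := {x : ℕ | x ∈ S ∧ x ≤ N}.ncard

/-- The word `w` of `l` digits in base `b` (a number below `b ^ l`) stands in the expansion of `x`
right after the `i`-th digit after the point. -/
def Stands (b l w : ℕ) (x : ℝ) (i : ℕ) : Prop :=
  ⌊(b : ℝ) ^ (i + l) * x⌋ % ((b ^ l : ℕ) : ℤ) = (w : ℤ)

/-- For arbitrarily large `s` every word `w` of `l` digits stands at a proportion of the `L` places
`s, …, s + L - 1` of `x` which differs from `b ^ (-l)` by at most `η`. -/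
def Recurrent (b l : ℕ) (η : ℝ) (L : ℕ) (x : ℝ) : Prop :=
  ∀ s₀ : ℕ, ∃ s ≥ s₀, ∀ w < b ^ l,
    |({i : ℕ | s ≤ i ∧ i < s + L ∧ Stands b l w x i}.ncard : ℝ) / L - 1 / (b : ℝ) ^ l| ≤ η

/-- (1) Let `A` have at most `K` representations of every `n ≤ h N` as a sum of `h` elements. For
all irrational `α` and all `β`, all but `(C K N ^ (1 - δ)) ^ (1/h)` of the elements `a ≤ N` of `A` are
such that for arbitrarily large `s` all words of `l` digits have nearly the right frequency at the
`log_b N` places of `a α + β` after `s`. (2) For all but `(C K N ^ (1 - δ)) ^ (1/h)` of the elements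
`a ≤ N` of `A` every word of `l` digits stands infinitely often in `a α + β`. -/
theorem result (b l h : ℕ) (hb : 2 ≤ b) (hh : 1 ≤ h) (η : ℝ) (hη : 0 < η) :
    ∃ δ C : ℝ, 0 < δ ∧ 0 < C ∧ ∀ (α : ℝ), Irrational α → ∀ (β : ℝ) (A : Set ℕ) (K N : ℕ), 1 ≤ N →
      (∀ n ≤ h * N, rep A h n ≤ K) →
      (count {a | a ∈ A ∧ ¬ Recurrent b l η (Nat.log b N) (a * α + β)} N : ℝ) ^ h ≤
        C * K * (N : ℝ) ^ (1 - δ) ∧
      (count {a | a ∈ A ∧ ¬ ∀ w < b ^ l, {i : ℕ | Stands b l w (a * α + β) i}.Infinite} N : ℝ) ^ h ≤
        C * K * (N : ℝ) ^ (1 - δ) := by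
  classical
  have hb0 : (0 : ℝ) < b := by
    have : 0 < b := by omega
    exact_mod_cast this
  have hql : 0 < (b : ℝ) ^ l := by positivity
  set η' : ℝ := min η (1 / (2 * (b : ℝ) ^ l)) with hη'
  have hη'0 : 0 < η' := lt_min hη (by positivity)
  obtain ⟨δ, C, hδ, hC, H⟩ := Pool.Agent.V11226.ED.mainS b l h hb (by omega) η' hη'0
  refine ⟨δ, C, hδ, hC, ?_⟩
  intro α hα β A K N hN hK
  have h1 := H α hα β A K N hN hK
  -- the windows
  have hwin : ∀ (x : ℝ) (s w L : ℕ), {i : ℕ | s ≤ i ∧ i < s + L ∧ Stands b l w x i}.ncard =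
      Pool.Agent.V11226.ED.agrR b l (fun _ => w) L ((b : ℝ) ^ s * x) := by
    intro x s w L
    unfold Pool.Agent.V11226.ED.agrR
    rw [← Set.ncard_coe_finset]
    have h2 : {i : ℕ | s ≤ i ∧ i < s + L ∧ Stands b l w x i} =
        (fun i : ℕ => s + i) '' (((Finset.range L).filter
          (fun i => Pool.Agent.V11226.ED.BlkR b l w ((b : ℝ) ^ s * x) i) : Finset ℕ) : Set ℕ) := by
      have hiff : ∀ i, Stands b l w x (s + i) ↔
          Pool.Agent.V11226.ED.BlkR b l w ((b : ℝ) ^ s * x) i := by
        intro i
        unfold Stands Pool.Agent.V11226.ED.BlkR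
        have h3 : (b : ℝ) ^ (s + i + l) * x = (b : ℝ) ^ (i + l) * ((b : ℝ) ^ s * x) := by
          rw [← mul_assoc, ← pow_add]
          congr 2
          omega
        rw [h3]
      ext i
      simp only [Set.mem_ofPred_eq, Set.mem_image, Finset.coe_filter, Finset.mem_range]
      constructor
      · rintro ⟨h3, h4, h5⟩
        refine ⟨i - s, ⟨by omega, ?_⟩, by omega⟩
        rw [← hiff]
        have h6 : s + (i - s) = i := by omega
        rw [h6]
        exact h5
      · rintro ⟨j, ⟨h3, h4⟩, rfl⟩
        exact ⟨by omega, by omega, (hiff j).2 h4⟩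
    rw [h2]
    exact Set.ncard_image_of_injective _ (fun i j hij => by simpa using hij)
  have hfin : {x | x ∈ A ∧ ¬ Pool.Agent.V11226.ED.RecW b l η' (Nat.log b N) ((x : ℝ) * α + β) ∧
      x ≤ N}.Finite := (Set.finite_Iic N).subset fun x hx => hx.2.2
  have hmono : ∀ P : ℕ → Prop, (∀ a ≤ N,
      Pool.Agent.V11226.ED.RecW b l η' (Nat.log b N) ((a : ℝ) * α + β) → P a) →
      (count {a | a ∈ A ∧ ¬ P a} N : ℝ) ^ h ≤ C * K * (N : ℝ) ^ (1 - δ) := by
    intro P hP
    refine le_trans (pow_le_pow_left₀ (Nat.cast_nonneg _) (Nat.cast_le.2 ?_) _) h1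
    refine Set.ncard_le_ncard ?_ hfin
    rintro a ⟨⟨ha1, ha2⟩, ha3⟩
    exact ⟨ha1, fun hR => ha2 (hP a ha3 hR), ha3⟩
  constructor
  · refine hmono _ ?_
    intro a _ hR s₀
    obtain ⟨s, hs, h2⟩ := hR s₀
    refine ⟨s, hs, fun w hw => ?_⟩
    rw [hwin]
    exact (h2 w hw).trans (min_le_left _ _)
  · refine hmono _ ?_
    intro a _ hR w hw
    rw [← Nat.frequently_atTop_iff_infinite, Filter.frequently_atTop]
    intro s₀
    obtain ⟨s, hs, h2⟩ := hR s₀
    by_contra hno
    push Not at hno
    have h3 := (h2 w hw).trans (min_le_right _ _)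
    rw [← hwin] at h3
    have h4 : {i : ℕ | s ≤ i ∧ i < s + Nat.log b N ∧ Stands b l w ((a : ℝ) * α + β) i} = ∅ := by
      ext i
      simp only [Set.mem_ofPred_eq, Set.mem_empty_iff_false, iff_false]
      rintro ⟨h5, _, h6⟩
      exact hno i (by omega) h6
    rw [h4] at h3
    simp only [Set.ncard_empty, Nat.cast_zero, zero_div, zero_sub, abs_neg] at h3
    rw [abs_of_pos (by positivity)] at h3
    have h5 : 1 / (2 * (b : ℝ) ^ l) < 1 / (b : ℝ) ^ l :=
      one_div_lt_one_div_of_lt hql (by linarith)
    linarith

end Pool.Agent.Results.MP_1f559e_nt.SparseMultiples
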